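import Pool.Agent.H36.RT.DZR
import Pool.Agent.H28.RC.Targets4

/-!
# The logarithm of a ray class L-function near `1` (module LGL)

The computation is the one of helper36 (module DZR) for the Dedekind zeta function.
-/

set_option autoImplicit false

open Complex Set Filter Topology

namespace Pool.Agent.H14.RC

open Pool.Agent.H28.RC Pool.Agent.H36.RT NumberField

lemma cpow_real (p : ℕ) (s : ℝ) : (p : ℂ) ^ (-(s : ℂ)) = (((p : ℝ) ^ (-s) : ℝ) : ℂ) := by
  rw [Complex.ofReal_cpow (Nat.cast_nonneg p)]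
  push_cast
  rfl

theorem pf_LGL : T_EPc → T_LGL := by
  intro hEP K _ _ χ
  obtain ⟨-, h, h0, h1, hm, hl, -, hz, hs⟩ := hEP K χ
  have hs1 : ∀ p : Nat.Primes, ∑ j, h j p = spc χ p 1 := by
    intro p
    rw [← hs p 1 p.2 le_rfl]
    exact Finset.sum_congr rfl fun j _ => (pow_one _).symm
  have hb : ∀ p : Nat.Primes, ‖spc χ p 1‖ ≤ (Module.finrank ℚ K : ℝ) := by
    intro p
    rw [← hs1 p]
    refine (norm_sum_le _ _).trans ((Finset.sum_le_sum fun j _ => hl j p).trans ?_)
    simp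
  have hsum : ∀ x : ℝ, 1 < x →
      Summable fun p : Nat.Primes => spc χ p 1 * ((p : ℕ) : ℂ) ^ (-(x : ℂ)) := by
    intro x hx
    refine Summable.of_norm_bounded ((summable_px hx).mul_left (Module.finrank ℚ K : ℝ))
      fun p => ?_
    rw [norm_mul, cpow_real, Complex.norm_real, Real.norm_of_nonneg (by positivity)]
    exact mul_le_mul_of_nonneg_right (hb p) (by positivity)
  have hE : ∀ x : ℝ, 1 < x → Lc χ x =
      cexp ((∑' p : Nat.Primes, spc χ p 1 * ((p : ℕ) : ℂ) ^ (-(x : ℂ))) +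
        ∑ j, ∑' p : Nat.Primes, rr (h j) x p) := by
    intro x hx
    rw [hz x (by simpa using hx)]
    rw [Finset.prod_congr rfl fun j _ => euler (h0 j) (h1 j) (hm j) (hl j) hx,
      ← Complex.exp_sum, Finset.sum_add_distrib]
    congr 2
    rw [← Summable.tsum_finsetSum fun j _ => summable_hp (hl j) hx]
    refine tsum_congr fun p => ?_
    rw [← Finset.sum_mul, hs1 p]
  refine ⟨⟨_, hb⟩, ?_, ?_⟩
  · intro s hs'
    rw [hE s hs']
    exact Complex.exp_ne_zero _
  · refine ⟨-(∑ j, ∑' p : Nat.Primes, rr (h j) 1 p).re, ?_⟩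
    have h2 : Tendsto (fun x : ℝ => -(∑ j, ∑' p : Nat.Primes, rr (h j) x p).re) (𝓝[>] 1)
        (𝓝 (-(∑ j, ∑' p : Nat.Primes, rr (h j) 1 p).re)) :=
      ((Complex.continuous_re.tendsto _).comp
        (tendsto_finsetSum _ fun j _ => tendsto_rr (hl j))).neg
    refine h2.congr' ?_
    filter_upwards [self_mem_nhdsWithin] with x hx
    rw [hE x hx, Complex.norm_exp, Real.log_exp, Complex.add_re]
    have h3 : (∑' p : Nat.Primes, spc χ p 1 * ((p : ℕ) : ℂ) ^ (-(x : ℂ))).re =
        ∑' p : Nat.Primes, (spc χ p 1).re * (p : ℝ) ^ (-x) := by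
      rw [Complex.re_tsum (hsum x hx)]
      refine tsum_congr fun p => ?_
      rw [cpow_real, Complex.re_mul_ofReal]
    rw [h3]
    ring

end Pool.Agent.H14.RC
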